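import Pool.Agent.Helper97.TW.Defs
import Pool.Agent.Helper5.M.G3M
import Pool.Agent.Helper22.HG2.G3P
import Pool.Agent.Helper22.HG.Der

/-!
# Project TW, block G3t: the weights, with the products outside `J` prescribed
-/

set_option autoImplicit false

namespace Pool.Agent.TW

open Polynomial NumberField IsDedekindDomain Pool.Agent.HG
open Pool.Agent.HG.Ctx
open Pool.Agent.Helper99.HG (CD pf Nm BT TA TB Sys)
open scoped Pointwise IntermediateField

/-- the weight is at most the one without prescriptions -/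
theorem wjt_le5 {k : ℕ} {G : Type} (D : CD k G) (J : Finset (Fin k)) (t : Fin k → D.ι → G)
    (p : D.P) : WJt D J t p ≤ Pool.Agent.Helper99.HG.WJ D J p := by
  classical
  unfold WJt Pool.Agent.Helper99.HG.WJ
  refine Finset.sum_le_sum_of_subset_of_nonneg ?_ fun _ _ _ => by positivity
  intro o ho
  rw [Finset.mem_filter] at ho ⊢
  exact ⟨ho.1, ho.2.1⟩

/-- the weight is bounded by the number of options -/
theorem wjt_card5 {k : ℕ} {G β : Type} (D : CD k G) (J : Finset (Fin k)) (t : Fin k → D.ι → G)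
    (p : D.P) (w : ℝ) (hw : 0 ≤ w) (A : Finset β) (φ : D.O → β)
    (h1 : ∀ o ∈ D.V p, D.cmp o ∈ J → φ o ∈ A ∧
      (1 / 2 : ℝ) ^ (∑ j ∈ J, (D.I p o j).card) = w)
    (h2 : ∀ o ∈ D.V p, ∀ o' ∈ D.V p, D.cmp o ∈ J → D.cmp o' ∈ J →
      (∀ j, j ∉ J → ∀ i ∈ D.I p o j, t j i = D.g p o i) →
      (∀ j, j ∉ J → ∀ i ∈ D.I p o' j, t j i = D.g p o' i) → φ o = φ o' → o = o') :
    WJt D J t p ≤ A.card * w := by
  classical
  unfold WJt
  have h3 : ∀ o ∈ (D.V p).filter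
      (fun o => D.cmp o ∈ J ∧ ∀ j, j ∉ J → ∀ i ∈ D.I p o j, t j i = D.g p o i),
      (1 / 2 : ℝ) ^ (∑ j ∈ J, (D.I p o j).card) = w := by
    intro o ho
    rw [Finset.mem_filter] at ho
    exact (h1 o ho.1 ho.2.1).2
  have h4 : ((D.V p).filter
      (fun o => D.cmp o ∈ J ∧ ∀ j, j ∉ J → ∀ i ∈ D.I p o j, t j i = D.g p o i)).card ≤ A.card := by
    refine Finset.card_le_card_of_injOn φ ?_ ?_
    · intro o ho
      have ho' := Finset.mem_coe.1 ho
      rw [Finset.mem_filter] at ho'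
      exact Finset.mem_coe.2 (h1 o ho'.1 ho'.2.1).1
    · intro o ho o' ho' he
      have a := Finset.mem_coe.1 ho
      have a' := Finset.mem_coe.1 ho'
      rw [Finset.mem_filter] at a a'
      exact h2 o a.1 o' a'.1 a.2.1 a'.2.1 a.2.2 a'.2.2 he
  calc _ ≤ ∑ o ∈ (D.V p).filter
        (fun o => D.cmp o ∈ J ∧ ∀ j, j ∉ J → ∀ i ∈ D.I p o j, t j i = D.g p o i), w := by
        refine le_of_eq (Finset.sum_congr ?_ ?_)
        · ext o
          simp only [Finset.mem_filter]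
        · intro o ho
          exact h3 o ho
    _ ≤ A.card * w := by
        rw [Finset.sum_const, nsmul_eq_mul]
        refine mul_le_mul_of_nonneg_right ?_ hw
        exact_mod_cast h4

section

variable {k L : Type} [Field k] [NumberField k] [Field L] [NumberField L] [Algebra k L]
  [IsGalois k L] {f : k[X]} (X : Ctx k L f)

/-- the exponent of the weight of one option -/
theorem expo5 (hm : 0 < X.m) (J : Finset (Fin X.m)) (v : Pr k) {t : L}
    (ht : t ∈ X.FJ5 hm J v) : (open scoped Classical in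
      (1 / 2 : ℝ) ^ (∑ j ∈ J, (((X.R v).filter fun ρ => X.cmp hm ρ = j).erase t).card)) =
        2 * (1 / 2 : ℝ) ^ (X.RJ5 hm J v).card := by
  classical
  have h3 : t ∈ X.RJ5 hm J v := X.FJ_sub_RJ5 hm J v ht
  have h4 : ∑ j ∈ J, (((X.R v).filter fun ρ => X.cmp hm ρ = j).erase t).card =
      ((X.RJ5 hm J v).erase t).card := by
    rw [Finset.card_eq_sum_card_fiberwise (f := X.cmp hm) (t := J)]
    · refine Finset.sum_congr rfl fun j hj => ?_
      congr 1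
      ext ρ
      rw [Finset.mem_erase, Finset.mem_filter, Finset.mem_filter, Finset.mem_erase, mem_RJ5]
      constructor
      · rintro ⟨a1, a2, a3⟩
        exact ⟨⟨a1, a2, by rw [a3]; exact hj⟩, a3⟩
      · rintro ⟨⟨a1, a2, _⟩, a3⟩
        exact ⟨a1, a2, a3⟩
    · intro ρ hρ
      have h5 := Finset.mem_of_mem_erase hρ
      exact ((X.mem_RJ5 hm J v ρ).1 h5).2
  have h5 := Finset.card_erase_add_one h3
  have h6 : (1 / 2 : ℝ) ^ (∑ j ∈ J, (((X.R v).filter fun ρ => X.cmp hm ρ = j).erase t).card) =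
      2 * (1 / 2 : ℝ) ^ (X.RJ5 hm J v).card := by
    rw [h4, ← h5, pow_succ]
    ring
  convert h6

theorem odd_pow5 {a b : ℕ} (ha : Odd a) (hb : 0 < b) (h : padicValNat 2 b ≤ padicValNat 2 a) :
    Odd (Nat.lcm a b / b) := by
  have : Fact (Nat.Prime 2) := ⟨Nat.prime_two⟩
  have h1 : padicValNat 2 a = 0 := padicValNat.eq_zero_of_not_dvd ha.not_two_dvd_nat
  have h2 : Odd b := by
    by_contra hne
    rw [Nat.not_odd_iff_even] at hne
    have h3 := one_le_padicValNat_of_dvd hb.ne' hne.two_dvd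
    omega
  have h3 : Odd (Nat.lcm a b) := by
    have h4 : Nat.lcm a b ∣ a * b := Nat.lcm_dvd_mul a b
    exact Odd.of_dvd_nat (ha.mul h2) h4
  exact Odd.of_dvd_nat h3 (Nat.div_dvd_of_dvd (Nat.dvd_lcm_right a b))

/-- an orbit of odd length outside `J` determines the sign -/
theorem wjt_forced5 (h4 : 4 ≤ f.natDegree) (hm : 0 < X.m)
    (hfin : {v : Pr k | ¬ Gd X.M v}.Finite) (ι : Type)
    (Vι : Pr k → L → Finset ι) (SG : Pr k → ι → ℕ → L → L → ℤˣ) (hh : L → L → L)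
    (J : Finset (Fin X.m)) (v : Pr k) (t : Fin X.m → L → ℤˣ) {ρ : L} (hρ : ρ ∈ X.R v)
    (hρJ : X.cmp hm ρ ∉ J) (hodd : Odd (X.len v ρ)) :
    WJt (X.cdM hm hfin ι Vι (ggM X hm SG hh)) J t v ≤
      2 * (∑ t ∈ X.FJ5 hm J v, (Vι v t).card : ℕ) * (1 / 2 : ℝ) ^ (X.RJ5 hm J v).card := by
  classical
  have key : ∀ o ∈ (X.cdM hm hfin ι Vι (ggM X hm SG hh)).V v,
      (X.cdM hm hfin ι Vι (ggM X hm SG hh)).cmp o ∈ J → o.1.1 ∈ X.FJ5 hm J v ∧
        o.2 ∈ Vι v o.1.1 := by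
    intro (o : (Σ _ : L × ℤˣ, ι)) ho h3
    have ho' : o ∈ (X.Fx v ×ˢ (Finset.univ : Finset ℤˣ)).sigma fun o => Vι v o.1 := ho
    rw [Finset.mem_sigma, Finset.mem_product] at ho'
    obtain ⟨⟨h1, -⟩, h2⟩ := ho'
    unfold Ctx.Fx at h1
    rw [Finset.mem_filter] at h1
    exact ⟨(X.mem_FJ5 hm J v _).2 ⟨h1, h3⟩, h2⟩
  have key2 : ∀ o : (Σ _ : L × ℤˣ, ι), o.1.1 ∈ X.FJ5 hm J v →
      (∀ j, j ∉ J → ∀ i ∈ (X.cdM hm hfin ι Vι (ggM X hm SG hh)).I v o j,
        t j i = (X.cdM hm hfin ι Vι (ggM X hm SG hh)).g v o i) →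
      t (X.cmp hm ρ) ρ = ggM X hm SG hh v o ρ := by
    intro o ho h3
    refine h3 _ hρJ ρ ?_
    change ρ ∈ ((X.R v).filter fun ρ' => X.cmp hm ρ' = X.cmp hm ρ).erase o.1.1
    rw [Finset.mem_erase, Finset.mem_filter]
    refine ⟨?_, hρ, rfl⟩
    rintro rfl
    exact hρJ ((X.mem_FJ5 hm J v _).1 ho).2
  have h := wjt_card5 (X.cdM hm hfin ι Vι (ggM X hm SG hh)) J t v
    (2 * (1 / 2 : ℝ) ^ (X.RJ5 hm J v).card) (by positivity)
    ((X.FJ5 hm J v).sigma fun t => Vι v t)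
    (fun o : (Σ _ : L × ℤˣ, ι) => (⟨o.1.1, o.2⟩ : Σ _ : L, ι)) ?_ ?_
  · refine h.trans (le_of_eq ?_)
    rw [Finset.card_sigma]
    ring
  · intro (o : (Σ _ : L × ℤˣ, ι)) ho h3
    have h5 := key o ho h3
    refine ⟨Finset.mem_sigma.2 h5, ?_⟩
    exact expo5 X hm J v h5.1
  · intro (o : (Σ _ : L × ℤˣ, ι)) ho (o' : (Σ _ : L × ℤˣ, ι)) ho' h3 h3' ha ha' he
    obtain ⟨ho1, -⟩ := key o ho h3
    obtain ⟨ho1', -⟩ := key o' ho' h3'
    have ho3 := key2 o ho1 ha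
    have ho3' := key2 o' ho1' ha'
    clear ha ha' ho ho' h3 h3' key key2
    obtain ⟨⟨b, u⟩, i⟩ := o
    obtain ⟨⟨b', u'⟩, i'⟩ := o'
    have e1 : b = b' := congrArg (fun z : (Σ _ : L, ι) => z.1) he
    have e2 : i = i' := congrArg (fun z : (Σ _ : L, ι) => z.2) he
    subst e1 e2
    have hfix : X.F v b = b := ((X.mem_FJ5 hm J v _).1 ho1).1.2
    have hbJ : X.cmp hm b ∈ J := ((X.mem_FJ5 hm J v _).1 ho1).2
    have hne : X.cmp hm b ≠ X.cmp hm ρ := fun h => hρJ (h ▸ hbJ)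
    have hρb : ρ ∈ (X.R v).erase b := by
      rw [Finset.mem_erase]
      refine ⟨?_, hρ⟩
      rintro rfl
      exact hne rfl
    have hle : padicValNat 2 (X.len v (X.st v b)) ≤ padicValNat 2 (X.len v ρ) := by
      refine X.st_le h4 hfix ?_
      convert hρb
    have hq := odd_pow5 hodd (X.len_pos v (X.st v b)) hle
    have e3 := ho3.symm.trans ho3'
    unfold ggM at e3
    dsimp only at e3
    rw [if_neg hne, mul_one, mul_one] at e3
    have e4 : u = u' := by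
      split_ifs at e3 with h5
      · exact e3
      · have e5 := mul_left_cancel e3
        obtain ⟨n, hn⟩ := hq
        rw [hn] at e5
        rw [pow_succ, pow_mul, Int.units_sq, one_pow, one_mul, pow_succ, pow_mul, Int.units_sq,
          one_pow, one_mul] at e5
        exact e5
    rw [e4]

/-- an odd number of roots outside `J`: there is an orbit of odd length -/
theorem exists_odd5 (hm : 0 < X.m) (J : Finset (Fin X.m)) (v : Pr k)
    (h : Odd (X.Ω.card - (X.ΩJ5 hm J).card)) :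
    ∃ ρ ∈ X.R v, X.cmp hm ρ ∉ J ∧ Odd (X.len v ρ) := by
  classical
  have : Fact (Nat.Prime 2) := ⟨Nat.prime_two⟩
  set T : Finset L := X.Ω \ X.ΩJ5 hm J with hT
  have hTm : ∀ θ : L, θ ∈ T ↔ θ ∈ X.Ω ∧ X.cmp hm θ ∉ J := by
    intro θ
    rw [hT, Finset.mem_sdiff, mem_ΩJ5]
    tauto
  have hsub : X.ΩJ5 hm J ⊆ X.Ω := by
    unfold Ctx.ΩJ5
    exact Finset.filter_subset _ _
  have hcard : T.card = X.Ω.card - (X.ΩJ5 hm J).card := by
    rw [hT, Finset.card_sdiff_of_subset hsub]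
  have hst : ∀ σ : L ≃ₐ[k] L, ∀ θ ∈ T, σ θ ∈ T := by
    intro σ θ hθ
    rw [hTm] at hθ ⊢
    refine ⟨X.conj_mem hθ.1 σ, ?_⟩
    rw [X.cmp_congr5 hm (minpoly.algEquiv_eq σ θ)]
    exact hθ.2
  obtain ⟨s, m, hm2, hsm⟩ := Nat.exists_eq_two_pow_mul_odd (orderOf_pos (X.F v)).ne'
  have hiff : ∀ θ : L, (X.F v ^ m) θ ∈ T ↔ θ ∈ T := by
    intro θ
    constructor
    · intro h1
      have h2 := hst (X.F v ^ m)⁻¹ _ h1
      rwa [← AlgEquiv.mul_apply, inv_mul_cancel] at h2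
    · exact hst _ θ
  set τ : Equiv.Perm {θ // θ ∈ T} :=
    Equiv.Perm.subtypePerm ((X.F v ^ m : L ≃ₐ[k] L).toEquiv) (p := fun θ => θ ∈ T) hiff with hτ
  have hτv : ∀ (n : ℕ) (θ : {θ // θ ∈ T}), ((τ ^ n) θ : L) = ((X.F v ^ m) ^ n) θ := by
    intro n
    induction n with
    | zero => intro θ; rfl
    | succ n ih =>
      intro θ
      rw [pow_succ, pow_succ, Equiv.Perm.mul_apply, ih, AlgEquiv.mul_apply]
      rfl
  have hτ2 : τ ^ 2 ^ s = 1 := by
    ext θ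
    rw [hτv, ← pow_mul, mul_comm, ← hsm, pow_orderOf_eq_one]
    rfl
  have hcT : ¬ 2 ∣ Fintype.card {θ // θ ∈ T} := by
    rw [Fintype.card_coe, hcard]
    exact h.not_two_dvd_nat
  obtain ⟨⟨θ, hθ⟩, hfix⟩ := Equiv.Perm.exists_fixed_point_of_prime hcT hτ2
  have h1 : (X.F v ^ m) θ = θ := by
    have h2 := hτv 1 ⟨θ, hθ⟩
    rw [pow_one, pow_one, hfix] at h2
    exact h2.symm
  rw [Ctx.pow_apply'] at h1
  have hper : Function.IsPeriodicPt (X.F v) m θ := h1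
  have hm0 : 0 < m := hm2.pos
  have hdvd : X.len v θ ∣ m := hper.minimalPeriod_dvd
  obtain ⟨i, hi⟩ := X.rep_eq v θ
  have hlen : X.len v (X.rep v θ) = X.len v θ := by
    unfold Ctx.len
    rw [hi]
    exact Function.minimalPeriod_apply_iterate ⟨m, hm0, hper⟩ i
  rw [hTm] at hθ
  refine ⟨X.rep v θ, ?_, ?_, ?_⟩
  · unfold Ctx.R
    exact Finset.mem_image_of_mem _ hθ.1
  · rw [X.cmp_rep5]
    exact hθ.2
  · rw [hlen]
    exact Odd.of_dvd_nat hm2 hdvd

theorem sum_card5 (hm : 0 < X.m) {ι : Type} (Vι : Pr k → L → Finset ι) (J : Finset (Fin X.m))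
    (v : Pr k) (c : ℕ) (hc : ∀ t, (Vι v t).card ≤ c) :
    ((∑ t ∈ X.FJ5 hm J v, (Vι v t).card : ℕ) : ℝ) ≤ c * (X.FJ5 hm J v).card := by
  have h1 : ∑ t ∈ X.FJ5 hm J v, (Vι v t).card ≤ c * (X.FJ5 hm J v).card := by
    refine (Finset.sum_le_card_nsmul _ _ c fun t _ => hc t).trans (le_of_eq ?_)
    rw [smul_eq_mul, mul_comm]
  exact_mod_cast h1

/-- the weight with a determined sign -/
theorem wjt_forced_le5 (h4 : 4 ≤ f.natDegree) (hm : 0 < X.m)
    (hfin : {v : Pr k | ¬ Gd X.M v}.Finite) (ι : Type)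
    (Vι : Pr k → L → Finset ι) (SG : Pr k → ι → ℕ → L → L → ℤˣ) (hh : L → L → L)
    (J : Finset (Fin X.m)) (v : Pr k) (t : Fin X.m → L → ℤˣ) {ρ : L} (hρ : ρ ∈ X.R v)
    (hρJ : X.cmp hm ρ ∉ J) (hodd : Odd (X.len v ρ)) (c : ℕ) (hc : ∀ t, (Vι v t).card ≤ c)
    {w : ℝ} (hw : 2 * ((X.FJ5 hm J v).card : ℝ) * (1 / 2 : ℝ) ^ (X.RJ5 hm J v).card ≤ w) :
    WJt (X.cdM hm hfin ι Vι (ggM X hm SG hh)) J t v ≤ w * c := by
  have h1 := wjt_forced5 X h4 hm hfin ι Vι SG hh J v t hρ hρJ hodd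
  have h2 := sum_card5 X hm Vι J v c hc
  have h3 : (0 : ℝ) ≤ (1 / 2 : ℝ) ^ (X.RJ5 hm J v).card := by positivity
  calc _ ≤ 2 * ((∑ t ∈ X.FJ5 hm J v, (Vι v t).card : ℕ) : ℝ) *
        (1 / 2 : ℝ) ^ (X.RJ5 hm J v).card := h1
    _ ≤ 2 * (c * (X.FJ5 hm J v).card) * (1 / 2 : ℝ) ^ (X.RJ5 hm J v).card := by
        refine mul_le_mul_of_nonneg_right ?_ h3
        linarith
    _ = (2 * ((X.FJ5 hm J v).card : ℝ) * (1 / 2 : ℝ) ^ (X.RJ5 hm J v).card) * c := by ring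
    _ ≤ w * c := mul_le_mul_of_nonneg_right hw (Nat.cast_nonneg c)

/-- the weight in general -/
theorem wjt_free_le5 (hm : 0 < X.m) (hfin : {v : Pr k | ¬ Gd X.M v}.Finite) (ι : Type)
    (Vι : Pr k → L → Finset ι) (g : Pr k → (Σ _ : L × ℤˣ, ι) → L → ℤˣ)
    (J : Finset (Fin X.m)) (v : Pr k) (t : Fin X.m → L → ℤˣ) (c : ℕ)
    (hc : ∀ t, (Vι v t).card ≤ c)
    {w : ℝ} (hw : 4 * ((X.FJ5 hm J v).card : ℝ) * (1 / 2 : ℝ) ^ (X.RJ5 hm J v).card ≤ w) :
    WJt (X.cdM hm hfin ι Vι g) J t v ≤ w * c := by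
  have h1 := wjt_le5 (X.cdM hm hfin ι Vι g) J t v
  have h2 := X.wjM_le5 hm hfin ι Vι g (fun _ _ _ => 1) J v c hc
  rw [X.wj5] at h2
  have h3 : (c : ℝ) * (4 * ((X.FJ5 hm J v).card : ℝ) * (1 / 2 : ℝ) ^ (X.RJ5 hm J v).card) ≤
      c * w := mul_le_mul_of_nonneg_left hw (Nat.cast_nonneg c)
  linarith

theorem pow_bd5 {n r : ℕ} (h : n ≤ r) : (1 / 2 : ℝ) ^ r ≤ (1 / 2 : ℝ) ^ n :=
  pow_le_pow_of_le_one (by norm_num) (by norm_num) h

/-- three roots -/
theorem bd_three5 (hm : 0 < X.m) (J : Finset (Fin X.m)) (v : Pr k)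
    (h3 : (X.ΩJ5 hm J).card = 3) :
    2 * ((X.FJ5 hm J v).card : ℝ) * (1 / 2 : ℝ) ^ (X.RJ5 hm J v).card ≤ 3 / 4 := by
  have h0 := Finset.card_le_card (X.FJ_sub_ΩJ5 hm J v)
  have h1 := Finset.card_le_card (X.FJ_sub_RJ5 hm J v)
  rcases lt_or_ge (X.FJ5 hm J v).card (X.ΩJ5 hm J).card with h | h
  · have h2 := pow_bd5 (X.card_RJ5 hm J v h)
    rw [h3] at h
    have h4 : (0 : ℝ) ≤ 2 * ((X.FJ5 hm J v).card : ℝ) := by positivity
    refine (mul_le_mul_of_nonneg_left h2 h4).trans ?_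
    generalize (X.FJ5 hm J v).card = n at h
    interval_cases n <;> norm_num
  · have h2 := pow_bd5 h1
    have h5 : (X.FJ5 hm J v).card = 3 := by omega
    rw [h5] at h2 ⊢
    refine (mul_le_mul_of_nonneg_left h2 (by norm_num)).trans ?_
    norm_num

/-- four roots -/
theorem bd_four5 (hm : 0 < X.m) (J : Finset (Fin X.m)) (v : Pr k)
    (h3 : (X.ΩJ5 hm J).card = 4) :
    4 * ((X.FJ5 hm J v).card : ℝ) * (1 / 2 : ℝ) ^ (X.RJ5 hm J v).card ≤ 1 := by
  have h0 := Finset.card_le_card (X.FJ_sub_ΩJ5 hm J v)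
  have h1 := Finset.card_le_card (X.FJ_sub_RJ5 hm J v)
  rcases lt_or_ge (X.FJ5 hm J v).card (X.ΩJ5 hm J).card with h | h
  · have h2 := pow_bd5 (X.card_RJ5 hm J v h)
    rw [h3] at h
    have h4 : (0 : ℝ) ≤ 4 * ((X.FJ5 hm J v).card : ℝ) := by positivity
    refine (mul_le_mul_of_nonneg_left h2 h4).trans ?_
    generalize (X.FJ5 hm J v).card = n at h
    interval_cases n <;> norm_num
  · have h2 := pow_bd5 h1
    have h5 : (X.FJ5 hm J v).card = 4 := by omega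
    rw [h5] at h2 ⊢
    refine (mul_le_mul_of_nonneg_left h2 (by norm_num)).trans ?_
    norm_num

/-- the weights, if there is a rational root in `J` and the number of roots is even -/
theorem wjt_all5 (h6 : 6 ≤ f.natDegree) (hev : Even f.natDegree) (hm : 0 < X.m)
    (hfin : {v : Pr k | ¬ Gd X.M v}.Finite) (ι : Type)
    (Vι : Pr k → L → Finset ι) (SG : Pr k → ι → ℕ → L → L → ℤˣ) (hh : L → L → L)
    (J : Finset (Fin X.m)) (h3 : 3 ≤ (X.ΩJ5 hm J).card) (v : Pr k) (t : Fin X.m → L → ℤˣ)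
    (c : ℕ) (hc : ∀ t, (Vι v t).card ≤ c) :
    WJt (X.cdM hm hfin ι Vι (ggM X hm SG hh)) J t v ≤ c ∧
    ((∀ θ ∈ X.Ω, X.F v θ = θ) →
      WJt (X.cdM hm hfin ι Vι (ggM X hm SG hh)) J t v ≤ 3 / 4 * c) := by
  classical
  have h4 : 4 ≤ f.natDegree := by omega
  have hc0 : (0 : ℝ) ≤ c := Nat.cast_nonneg c
  have hΩ := X.card_Ω
  rcases Nat.lt_or_ge (X.ΩJ5 hm J).card 5 with h5 | h5
  · rcases Nat.lt_or_ge (X.ΩJ5 hm J).card 4 with h7 | h7
    · -- three roots in `J`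
      have h8 : (X.ΩJ5 hm J).card = 3 := by omega
      have hodd : Odd (X.Ω.card - (X.ΩJ5 hm J).card) := by
        rw [hΩ, h8]
        obtain ⟨n, hn⟩ := hev
        exact ⟨n - 2, by omega⟩
      obtain ⟨ρ, hρ, hρJ, hρo⟩ := exists_odd5 X hm J v hodd
      have h9 := wjt_forced_le5 X h4 hm hfin ι Vι SG hh J v t hρ hρJ hρo c hc
        (bd_three5 X hm J v h8)
      exact ⟨by linarith, fun _ => h9⟩
    · have h8 : (X.ΩJ5 hm J).card = 4 := by omega
      have hb := bd_four5 X hm J v h8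
      refine ⟨?_, fun hs => ?_⟩
      · have h9 := wjt_free_le5 X hm hfin ι Vι (ggM X hm SG hh) J v t c hc hb
        linarith
      · obtain ⟨ρ, hρ, hρ'⟩ : ∃ ρ ∈ X.Ω, ρ ∉ X.ΩJ5 hm J := by
          by_contra hcon
          push Not at hcon
          have := Finset.card_le_card (fun ρ hρ => hcon ρ hρ : X.Ω ⊆ X.ΩJ5 hm J)
          omega
        rw [Ctx.mem_ΩJ5, not_and] at hρ'
        have hlen : X.len v ρ = 1 := by
          unfold Ctx.len
          rw [Function.minimalPeriod_eq_one_iff_isFixedPt]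
          exact hs ρ hρ
        have h9 := wjt_forced_le5 X h4 hm hfin ι Vι SG hh J v t (w := 1 / 2)
          (X.fix_mem_R5 hρ (hs ρ hρ)) (hρ' hρ) (by rw [hlen]; exact odd_one) c hc (by linarith)
        linarith
  · have h9 := X.wj_le5 hm hfin (fun _ _ _ => 1) J h5 v
    refine ⟨?_, fun hs => ?_⟩
    · rw [X.wj5] at h9
      have h10 := wjt_free_le5 X hm hfin ι Vι (ggM X hm SG hh) J v t c hc h9
      linarith
    · have h11 := X.wj_le_split5 hm hfin (fun _ _ _ => 1) J h5 v hs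
      rw [X.wj5] at h11
      have h10 := wjt_free_le5 X hm hfin ι Vι (ggM X hm SG hh) J v t c hc h11
      linarith

/-- the weights are less than `1` in the mean -/
theorem tbt5 (hMe : StmtMert) (K : ℕ) {δs Cs : ℝ} {Qs : Set (Pr k)} (hδs : 0 < δs)
    (hQs : ∀ v ∈ Qs, ∀ P : Pr L, P.asIdeal.comap (algebraMap (𝓞 k) (𝓞 L)) = v.asIdeal →
        ∀ z : 𝓞 L, z ^ nm v - z ∈ P.asIdeal)
    {B₀ : ℕ → Finset (Pr k)} (hB₀ : ∀ x v, v ∈ B₀ x ↔ nm v ≤ x)
    (hCs : ∀ x : ℕ, 2 ≤ x → |(open scoped Classical in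
      ∑ v ∈ (B₀ x).filter (· ∈ Qs), (1 : ℝ) / nm v) - δs * Real.log (Real.log x)| ≤ Cs)
    (h6 : 6 ≤ f.natDegree) (hev : Even f.natDegree) (hm : 0 < X.m)
    (hfin : {v : Pr k | ¬ Gd X.M v}.Finite) (ι : Type)
    (Vι : Pr k → L → Finset ι) (SG : Pr k → ι → ℕ → L → L → ℤˣ) (hh : L → L → L)
    (hK : ∀ v t, (Vι v t).card ≤ K) (Q : Set (Pr k))
    (hQ : ∀ v ∉ Q, Gd X.M v → ∀ t, (Vι v t).card ≤ 1)
    {B : ℕ → Finset (Pr k)} (hB : ∀ x v, v ∈ B x ↔ nm v ≤ x) {δ C : ℝ}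
    (hδ : δ ≤ 1 / 8 * δs / (K + 1 / 4))
    (hC : ∀ x : ℕ, 2 ≤ x → |(open scoped Classical in
      ∑ v ∈ (B x).filter (· ∈ Q), (1 : ℝ) / nm v) - δ * Real.log (Real.log x)| ≤ C)
    (J : Finset (Fin X.m)) (h3 : 3 ≤ (X.ΩJ5 hm J).card) :
    TBt (X.cdM hm hfin ι Vι (ggM X hm SG hh)) J := by
  classical
  obtain ⟨_, C₂, h2⟩ := hMe k B hB
  have hKpos : (0 : ℝ) < K + 1 / 4 := by positivity
  refine ⟨?_, 1 / 8 * δs, 2 * C₂ + 1 / 4 * (2 * Cs + ∑ v ∈ hfin.toFinset, (1 : ℝ) / nm v) +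
    (K + 1 / 4) * (2 * C), by positivity,
    fun y x hy hyx (t : Pr k → Fin X.m → L → ℤˣ) (S : Finset (Pr k)) hS => ?_⟩
  · obtain ⟨θ, hθ⟩ := Finset.card_pos.1 (show 0 < (X.ΩJ5 hm J).card by omega)
    rw [mem_ΩJ5] at hθ
    exact ⟨_, hθ.2⟩
  · have hS' : ∀ v, v ∈ S ↔ v ∉ hfin.toFinset ∧ y < nm v ∧ nm v ≤ x := hS
    have hLL : Real.log (Real.log y) ≤ Real.log (Real.log x) :=
      Real.log_le_log (Real.log_pos (by exact_mod_cast (by omega : 1 < y)))
        (Real.log_le_log (by exact_mod_cast (by omega : 0 < y)) (by exact_mod_cast hyx))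
    have e1 := upper5 hB h2 hy hyx S fun v hv => ((hS' v).1 hv).2
    have e2 := diff5 hB₀ Qs (by convert hCs) hfin.toFinset hy hyx (S.filter (· ∈ Qs))
      fun v hvQ h1 h2 h3 => by
        rw [Finset.mem_filter, hS']
        exact ⟨⟨h3, h1, h2⟩, hvQ⟩
    have e2' := upperQ5 hB Q (by convert hC) hy hyx (S.filter (· ∈ Q))
      fun v hv => by
        rw [Finset.mem_filter, hS'] at hv
        exact ⟨hv.2, hv.1.2⟩
    have e3 : ∀ v ∈ S, WJt (X.cdM hm hfin ι Vι (ggM X hm SG hh)) J (t v) v / nm v ≤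
        1 / nm v - 1 / 4 * (if v ∈ Qs then (1 : ℝ) / nm v else 0) +
          (K + 1 / 4) * (if v ∈ Q then (1 : ℝ) / nm v else 0) := by
      intro v hv
      have hpos : (0 : ℝ) < nm v := by
        have := (card_quot5 v).2
        exact_mod_cast (by omega : 0 < nm v)
      have hgd : Gd X.M v := by
        by_contra h8
        exact ((hS' v).1 hv).1 (hfin.mem_toFinset.2 h8)
      have key : WJt (X.cdM hm hfin ι Vι (ggM X hm SG hh)) J (t v) v ≤
          1 - 1 / 4 * (if v ∈ Qs then (1 : ℝ) else 0) +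
            (K + 1 / 4) * (if v ∈ Q then (1 : ℝ) else 0) := by
        by_cases hvQ : v ∈ Q
        · have h6 := (wjt_all5 X h6 hev hm hfin ι Vι SG hh J h3 v (t v) K (hK v)).1
          rw [if_pos hvQ]
          have h8 : (if v ∈ Qs then (1 : ℝ) else 0) ≤ 1 := by split_ifs <;> norm_num
          linarith
        · have h6 := wjt_all5 X h6 hev hm hfin ι Vι SG hh J h3 v (t v) 1 (hQ v hvQ hgd)
          rw [Nat.cast_one, mul_one] at h6
          rw [if_neg hvQ, mul_zero, add_zero]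
          split_ifs with h
          · have := h6.2 fun θ hθ => X.fix_split5 hgd (hQs v h (X.P v) (X.comap v)) hθ
            linarith
          · linarith [h6.1]
      have h9 := div_le_div_of_nonneg_right key hpos.le
      refine h9.trans (le_of_eq ?_)
      split_ifs <;> ring
    have e4 : ∑ v ∈ S, WJt (X.cdM hm hfin ι Vι (ggM X hm SG hh)) J (t v) v / nm v ≤
        ∑ v ∈ S, (1 : ℝ) / nm v - 1 / 4 * ∑ v ∈ S.filter (· ∈ Qs), (1 : ℝ) / nm v +
          (K + 1 / 4) * ∑ v ∈ S.filter (· ∈ Q), (1 : ℝ) / nm v := by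
      refine (Finset.sum_le_sum e3).trans (le_of_eq ?_)
      rw [Finset.sum_add_distrib, Finset.sum_sub_distrib, ← Finset.mul_sum, ← Finset.mul_sum,
        Finset.sum_filter, Finset.sum_filter]
    have e5 : (K + 1 / 4 : ℝ) * (δ * (Real.log (Real.log x) - Real.log (Real.log y))) ≤
        1 / 8 * δs * (Real.log (Real.log x) - Real.log (Real.log y)) := by
      rw [← mul_assoc]
      refine mul_le_mul_of_nonneg_right ?_ (by linarith)
      rw [le_div_iff₀ hKpos] at hδ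
      linarith
    have e6 : (K + 1 / 4 : ℝ) * ∑ v ∈ S.filter (· ∈ Q), (1 : ℝ) / nm v ≤
        (K + 1 / 4) * (δ * (Real.log (Real.log x) - Real.log (Real.log y)) + 2 * C) :=
      mul_le_mul_of_nonneg_left e2' hKpos.le
    change ∑ v ∈ S, WJt (X.cdM hm hfin ι Vι (ggM X hm SG hh)) J (t v) v / nm v ≤ _
    rw [mul_add] at e6
    linarith

end

/-- **BLOCK G3t**: the weights, with multiplicities, one rational root and an even number (`≥ 6`)
of roots -/
theorem g3t : StmtG3t := by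
  intro hMe hSp k L _ _ _ _ _ _ f a ha huniq hev h6 K
  obtain ⟨B₀, hB₀⟩ := exists_B5 k
  obtain ⟨δs, Cs, Qs, hδs, hQs, hCs⟩ := hSp k L B₀ hB₀
  have hKpos : (0 : ℝ) < K + 1 / 4 := by positivity
  refine ⟨1 / 8 * δs / (K + 1 / 4), by positivity,
    fun X hm hfin ι Vι SG hh hK Q hQ B hB δ C hδ hC => ?_⟩
  have hbig : ∀ J : Finset (Fin X.m), 3 ≤ (X.ΩJ5 hm J).card →
      TBt (X.cdM hm hfin ι Vι (ggM X hm SG hh)) J := by
    intro J hJ
    refine tbt5 X (Cs := Cs) (C := C) hMe K hδs hQs hB₀ ?_ h6 hev hm hfin ι Vι SG hh hK Q hQ hB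
      hδ ?_ J hJ
    · intro x hx
      convert hCs x hx
    · intro x hx
      convert hC x hx
  have hthree : ∀ J : Finset (Fin X.m), X.cmp hm (algebraMap k L a) ∈ J →
      J ≠ {X.cmp hm (algebraMap k L a)} → 3 ≤ (X.ΩJ5 hm J).card := by
    intro J hJ hne
    classical
    obtain ⟨j, hj, hj0⟩ : ∃ j ∈ J, j ≠ X.cmp hm (algebraMap k L a) := by
      by_contra hcon
      push Not at hcon
      exact hne (Finset.eq_singleton_iff_unique_mem.2 ⟨hJ, hcon⟩)
    obtain ⟨θ, hθ, rfl⟩ := X.cmp_surj22 hm j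
    have hθa : θ ≠ algebraMap k L a := by
      rintro rfl
      exact hj0 rfl
    have h1 := X.class_card22 hm hθ
    have h2 : 2 ≤ (minpoly k θ).natDegree := by
      rw [minpoly.two_le_natDegree_iff (Algebra.IsIntegral.isIntegral θ)]
      rintro ⟨b, rfl⟩
      have h3 := hθ
      rw [Ctx.mem_Ω, mem_rootSet] at h3
      have h4 := h3.2
      rw [aeval_algebraMap_apply, map_eq_zero] at h4
      exact hθa (by rw [huniq b (by rw [← h4]; rfl)])
    have h3 : algebraMap k L a ∉ X.ΩJ5 hm {X.cmp hm θ} := by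
      rw [Ctx.mem_ΩJ5, Finset.mem_singleton]
      rintro ⟨-, h⟩
      exact hj0 h.symm
    have h4 : insert (algebraMap k L a) (X.ΩJ5 hm {X.cmp hm θ}) ⊆ X.ΩJ5 hm J := by
      intro ρ hρ
      rw [Ctx.mem_ΩJ5]
      rcases Finset.mem_insert.1 hρ with rfl | hρ
      · exact ⟨X.rat_mem22 ha, hJ⟩
      · rw [Ctx.mem_ΩJ5, Finset.mem_singleton] at hρ
        exact ⟨hρ.1, hρ.2 ▸ hj⟩
    have h5 := Finset.card_le_card h4
    rw [Finset.card_insert_of_notMem h3] at h5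
    omega
  classical
  refine ⟨sys5 hMe k, ⟨X.Ω.card * 2 * K, fun p => ?_⟩, ⟨?_, ?_⟩, fun J => ?_,
    fun J hJ hne => hbig J (hthree J hJ hne)⟩
  · change ((X.Fx p ×ˢ (Finset.univ : Finset ℤˣ)).sigma fun o => Vι p o.1).card ≤ _
    have hu : (Finset.univ : Finset ℤˣ).card = 2 := rfl
    rw [Finset.card_sigma]
    refine (Finset.sum_le_card_nsmul _ _ K fun o _ => hK p o.1).trans ?_
    rw [smul_eq_mul, Finset.card_product, hu]
    refine Nat.mul_le_mul_right K (Nat.mul_le_mul_right 2 ?_)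
    unfold Ctx.Fx
    exact Finset.card_filter_le _ _
  · intro q (o : (Σ _ : L × ℤˣ, ι)) ho (o' : (Σ _ : L × ℤˣ, ι)) ho' h h' p (i : L)
    have h1 : o ∈ (X.Fx q ×ˢ (Finset.univ : Finset ℤˣ)).sigma fun o => Vι q o.1 := ho
    have h2 : o' ∈ (X.Fx q ×ˢ (Finset.univ : Finset ℤˣ)).sigma fun o => Vι q o.1 := ho'
    have h3 := (Finset.mem_product.1 (Finset.mem_sigma.1 h1).1).1
    have h4 := (Finset.mem_product.1 (Finset.mem_sigma.1 h2).1).1
    unfold Ctx.Fx at h3 h4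
    rw [Finset.mem_filter] at h3 h4
    have e1 : o.1.1 = algebraMap k L a := X.eq_rat_of_cmp22 hm ha h3.1 h
    have e2 : o'.1.1 = algebraMap k L a := X.eq_rat_of_cmp22 hm ha h4.1 h'
    change X.ch p (X.len p i) (aeval i (X.B q o.1.1)) = X.ch p (X.len p i) (aeval i (X.B q o'.1.1))
    rw [e1, e2]
  · intro q (o : (Σ _ : L × ℤˣ, ι)) ho h
    have h1 : o ∈ (X.Fx q ×ˢ (Finset.univ : Finset ℤˣ)).sigma fun o => Vι q o.1 := ho
    have h3 := (Finset.mem_product.1 (Finset.mem_sigma.1 h1).1).1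
    unfold Ctx.Fx at h3
    rw [Finset.mem_filter] at h3
    have e1 : o.1.1 = algebraMap k L a := X.eq_rat_of_cmp22 hm ha h3.1 h
    change ((X.R q).filter fun ρ => X.cmp hm ρ = X.cmp hm (algebraMap k L a)).erase o.1.1 = ∅
    rw [Finset.eq_empty_iff_forall_notMem]
    intro ρ hρ
    rw [Finset.mem_erase, Finset.mem_filter] at hρ
    refine hρ.1 ?_
    rw [e1]
    exact X.eq_rat_of_cmp22 hm ha (X.R_sub22 hρ.2.1) hρ.2.2
  · by_cases hJ : X.cmp hm (algebraMap k L a) ∈ J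
    · by_cases hne : J = {X.cmp hm (algebraMap k L a)}
      · exact Or.inl hne
      · exact Or.inr (Or.inr (hbig J (hthree J hJ hne)))
    · right
      rcases Nat.lt_or_ge (X.ΩJ5 hm J).card 5 with h | h
      · refine Or.inl (X.taM5 Pool.Agent.Helper22.HG.der hm hfin ι Vι (ggM X hm SG hh) J (by omega) ?_)
        rintro θ hθ b rfl
        rw [Ctx.mem_ΩJ5] at hθ
        have h3 := hθ.1
        rw [Ctx.mem_Ω, mem_rootSet] at h3
        have h4 := h3.2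
        rw [aeval_algebraMap_apply, map_eq_zero] at h4
        have h5 := huniq b (by rw [← h4]; rfl)
        subst h5
        exact hJ hθ.2
      · exact Or.inr (hbig J (by omega))

end Pool.Agent.TW
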